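import Mathlib
import Pool.Agent.X177.SR.Heis

/-!
# The regular conjugate locus of a sub-Riemannian manifold need not be dense

The example is `Heisenberg × ℝ`: the sub-Riemannian structure on `ℝ⁴` with orthonormal frame
`X₁ = ∂_x - (y/2) ∂_z`, `X₂ = ∂_y + (x/2) ∂_z`, `X₃ = ∂_u`, and `q = 0`.
The covectors `(0, 0, w, c)` with `c ≠ 0` are conjugate (the line `t ↦ (0, 0, 0, c t)` is both a
normal and an abnormal geodesic), together with all their multiples; and near such a covector with
`π < w < 2π` there are no other conjugate covectors.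
-/

set_option autoImplicit false

open scoped ContDiff Topology
open Set Filter

namespace Pool.Agent.Results.MP_f98bae_gt.RegularNotDense

open Pool.Agent.X177.SR

theorem ham_zero (p : R4) : ham HX 0 p = (1 / 2) * (p 0 ^ 2 + p 1 ^ 2 + p 3 ^ 2) := by
  rw [ham_eq]
  simp

theorem hex_vert (p : R4) (h0 : p 0 = 0) (h1 : p 1 = 0) : hex p = ![0, 0, 0, p 3] := by
  unfold hex sol
  split_ifs with h <;> simp [h0, h1]

theorem conj_vert (p : R4) (h0 : p 0 = 0) (h1 : p 1 = 0) (h3 : p 3 ≠ 0) :
    p ∈ conjLocus HX 0 hex := by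
  refine ⟨?_, ?_⟩
  · rw [ham_zero, h0, h1]
    have : 0 < p 3 ^ 2 := by positivity
    nlinarith
  · intro hb
    set e : R4 := ![0, 0, 1, 0] with he
    have hz : fderiv ℝ hex p e = 0 := by
      by_cases hd : DifferentiableAt ℝ hex p
      · have h4 : HasDerivAt (fun t : ℝ => p + t • e) e 0 := by
          simpa using ((hasDerivAt_id (0 : ℝ)).smul_const e).const_add p
        have h5 : HasFDerivAt hex (fderiv ℝ hex p) (p + (0 : ℝ) • e) := by
          rw [zero_smul, add_zero]
          exact hd.hasFDerivAt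
        have h6 := h5.comp_hasDerivAt (0 : ℝ) h4
        have h7 : (hex ∘ fun t : ℝ => p + t • e) = fun _ => (![0, 0, 0, p 3] : R4) := by
          ext1 t
          have := hex_vert (p + t • e) (by simp [he, h0]) (by simp [he, h1])
          rw [Function.comp_apply, this]
          simp [he]
        rw [h7] at h6
        exact h6.unique (hasDerivAt_const _ _)
      · rw [fderiv_zero_of_not_differentiableAt hd]
        rfl
    have h8 : e = 0 := hb.1 (by rw [hz, map_zero])
    have h9 := congrFun h8 2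
    simp [he] at h9

theorem surj_of_inj (L : R4 →L[ℝ] R4) (h : Function.Injective L) : Function.Surjective L :=
  LinearMap.surjective_of_injective (f := (L : R4 →ₗ[ℝ] R4)) h

/-- near a covector with `π < w < 2π` the exponential map is a local diffeomorphism unless
`h = 0` -/
theorem bij (p : R4) (hw1 : Real.pi < p 2) (hw2 : p 2 < 2 * Real.pi)
    (hne : ¬ (p 0 = 0 ∧ p 1 = 0)) : Function.Bijective (fderiv ℝ hex p) := by
  have hw0 : p 2 ≠ 0 := by
    have := Real.pi_pos
    intro h; linarith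
  have hwpos : 0 < p 2 := by linarith [Real.pi_pos]
  set w := p 2 with hw
  have hsin : Real.sin w < 0 := by
    have h := Real.sin_neg_of_neg_of_neg_pi_lt (x := w - 2 * Real.pi) (by linarith) (by linarith)
    rwa [Real.sin_sub_two_pi] at h
  have hsc := Real.sin_sq_add_cos_sq w
  have hcos : Real.cos w < 1 := by
    by_contra h
    have h1 : Real.cos w = 1 := le_antisymm (Real.cos_le_one w) (not_lt.1 h)
    rw [h1] at hsc
    nlinarith
  -- the coordinate functions
  have dS : HasDerivAt (fun w => Real.sin w / w) ((Real.cos w * w - Real.sin w * 1) / w ^ 2) w :=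
    (Real.hasDerivAt_sin w).div (hasDerivAt_id w) hw0
  have dC : HasDerivAt (fun w => (1 - Real.cos w) / w)
      ((-(-Real.sin w) * w - (1 - Real.cos w) * 1) / w ^ 2) w :=
    ((Real.hasDerivAt_cos w).const_sub 1).div (hasDerivAt_id w) hw0
  have dZ : HasDerivAt (fun w => (w - Real.sin w) / (2 * w ^ 2))
      (((1 - Real.cos w) * (2 * w ^ 2) - (w - Real.sin w) * (2 * (2 * w))) / (2 * w ^ 2) ^ 2)
      w := by
    have h1 : HasDerivAt (fun w : ℝ => 2 * w ^ 2) (2 * (2 * w)) w := by
      simpa using ((hasDerivAt_pow 2 w)).const_mul 2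
    exact ((hasDerivAt_id w).sub (Real.hasDerivAt_sin w)).div h1 (by positivity)
  have cS := dS.comp_hasFDerivAt p (hasFDerivAt_co 2 p)
  have cC := dC.comp_hasFDerivAt p (hasFDerivAt_co 2 p)
  have cZ := dZ.comp_hasFDerivAt p (hasFDerivAt_co 2 p)
  set S := Real.sin w / w with hS
  set C := (1 - Real.cos w) / w with hC
  set Z := (w - Real.sin w) / (2 * w ^ 2) with hZ
  set S' := (Real.cos w * w - Real.sin w * 1) / w ^ 2 with hS'
  set C' := (-(-Real.sin w) * w - (1 - Real.cos w) * 1) / w ^ 2 with hC'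
  set Z' := ((1 - Real.cos w) * (2 * w ^ 2) - (w - Real.sin w) * (2 * (2 * w))) / (2 * w ^ 2) ^ 2
    with hZ'
  have hev : ∀ᶠ y : R4 in 𝓝 p, y 2 ≠ 0 :=
    ((continuous_apply 2).continuousAt (x := p)).eventually_ne hw0
  have key : ∀ i, (fun y : R4 => hex y i) =ᶠ[𝓝 p]
      (![fun y => y 0 * (Real.sin (y 2) / y 2) - y 1 * ((1 - Real.cos (y 2)) / y 2),
        fun y => y 0 * ((1 - Real.cos (y 2)) / y 2) + y 1 * (Real.sin (y 2) / y 2),
        fun y => (y 0 ^ 2 + y 1 ^ 2) * ((y 2 - Real.sin (y 2)) / (2 * y 2 ^ 2)),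
        fun y => y 3] : Fin 4 → R4 → ℝ) i := by
    intro i
    filter_upwards [hev] with y hy
    unfold hex sol
    rw [if_neg hy]
    fin_cases i
    · simp; ring
    · simp; ring
    · simp; ring
    · simp
  -- the derivative
  have hL : HasFDerivAt hex (ContinuousLinearMap.pi
      (![(p 0 • (S' • ContinuousLinearMap.proj (R := ℝ) (φ := fun _ : Fin 4 => ℝ) 2)
            + S • ContinuousLinearMap.proj (R := ℝ) (φ := fun _ : Fin 4 => ℝ) 0)
          - (p 1 • (C' • ContinuousLinearMap.proj (R := ℝ) (φ := fun _ : Fin 4 => ℝ) 2)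
            + C • ContinuousLinearMap.proj (R := ℝ) (φ := fun _ : Fin 4 => ℝ) 1),
        (p 0 • (C' • ContinuousLinearMap.proj (R := ℝ) (φ := fun _ : Fin 4 => ℝ) 2)
            + C • ContinuousLinearMap.proj (R := ℝ) (φ := fun _ : Fin 4 => ℝ) 0)
          + (p 1 • (S' • ContinuousLinearMap.proj (R := ℝ) (φ := fun _ : Fin 4 => ℝ) 2)
            + S • ContinuousLinearMap.proj (R := ℝ) (φ := fun _ : Fin 4 => ℝ) 1),
        (p 0 ^ 2 + p 1 ^ 2) • (Z' • ContinuousLinearMap.proj (R := ℝ) (φ := fun _ : Fin 4 => ℝ) 2)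
          + Z • ((2 * p 0) • ContinuousLinearMap.proj (R := ℝ) (φ := fun _ : Fin 4 => ℝ) 0
            + (2 * p 1) • ContinuousLinearMap.proj (R := ℝ) (φ := fun _ : Fin 4 => ℝ) 1),
        ContinuousLinearMap.proj (R := ℝ) (φ := fun _ : Fin 4 => ℝ) 3] :
        Fin 4 → (R4 →L[ℝ] ℝ))) p := by
    rw [hasFDerivAt_pi]
    intro i
    refine HasFDerivAt.congr_of_eventuallyEq ?_ (key i)
    fin_cases i
    · exact ((hasFDerivAt_co 0 p).mul cS).sub ((hasFDerivAt_co 1 p).mul cC)
    · exact ((hasFDerivAt_co 0 p).mul cC).add ((hasFDerivAt_co 1 p).mul cS)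
    · have h1 : HasFDerivAt (fun y : R4 => y 0 ^ 2 + y 1 ^ 2)
          ((2 * p 0) • ContinuousLinearMap.proj (R := ℝ) (φ := fun _ : Fin 4 => ℝ) 0
            + (2 * p 1) • ContinuousLinearMap.proj (R := ℝ) (φ := fun _ : Fin 4 => ℝ) 1) p := by
        have h2 := ((hasFDerivAt_co 0 p).pow 2).add ((hasFDerivAt_co 1 p).pow 2)
        refine h2.congr_fderiv ?_
        ext v
        simp
      exact h1.mul cZ
    · exact hasFDerivAt_co 3 p
  rw [hL.fderiv]
  -- injectivity
  have hinj : Function.Injective (ContinuousLinearMap.pi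
      (![(p 0 • (S' • ContinuousLinearMap.proj (R := ℝ) (φ := fun _ : Fin 4 => ℝ) 2)
            + S • ContinuousLinearMap.proj (R := ℝ) (φ := fun _ : Fin 4 => ℝ) 0)
          - (p 1 • (C' • ContinuousLinearMap.proj (R := ℝ) (φ := fun _ : Fin 4 => ℝ) 2)
            + C • ContinuousLinearMap.proj (R := ℝ) (φ := fun _ : Fin 4 => ℝ) 1),
        (p 0 • (C' • ContinuousLinearMap.proj (R := ℝ) (φ := fun _ : Fin 4 => ℝ) 2)
            + C • ContinuousLinearMap.proj (R := ℝ) (φ := fun _ : Fin 4 => ℝ) 0)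
          + (p 1 • (S' • ContinuousLinearMap.proj (R := ℝ) (φ := fun _ : Fin 4 => ℝ) 2)
            + S • ContinuousLinearMap.proj (R := ℝ) (φ := fun _ : Fin 4 => ℝ) 1),
        (p 0 ^ 2 + p 1 ^ 2) • (Z' • ContinuousLinearMap.proj (R := ℝ) (φ := fun _ : Fin 4 => ℝ) 2)
          + Z • ((2 * p 0) • ContinuousLinearMap.proj (R := ℝ) (φ := fun _ : Fin 4 => ℝ) 0
            + (2 * p 1) • ContinuousLinearMap.proj (R := ℝ) (φ := fun _ : Fin 4 => ℝ) 1),
        ContinuousLinearMap.proj (R := ℝ) (φ := fun _ : Fin 4 => ℝ) 3] :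
        Fin 4 → (R4 →L[ℝ] ℝ))) := by
    rw [injective_iff_map_eq_zero]
    intro v hv
    have e0 := congrFun hv 0
    have e1 := congrFun hv 1
    have e2 := congrFun hv 2
    have e3 := congrFun hv 3
    simp at e0 e1 e2 e3
    have hR : 0 < S ^ 2 + C ^ 2 := by
      have hC0 : 0 < C := div_pos (by linarith) hwpos
      positivity
    have hP : 0 < p 0 ^ 2 + p 1 ^ 2 := by
      by_contra hcon
      apply hne
      constructor <;> nlinarith [sq_nonneg (p 0), sq_nonneg (p 1)]
    have hkey : Z' * (S ^ 2 + C ^ 2) - 2 * Z * (S * S' + C * C')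
        = (2 - 2 * Real.cos w - w * Real.sin w) / w ^ 4 := by
      have hsc' : Real.sin w ^ 2 = 1 - Real.cos w ^ 2 := by linarith
      rw [hZ', hS, hC, hZ, hS', hC']
      field_simp
      ring_nf
      simp only [hsc']
      ring
    have hpos : 0 < (2 - 2 * Real.cos w - w * Real.sin w) / w ^ 4 := by
      apply div_pos _ (by positivity)
      nlinarith
    have hv2 : v 2 = 0 := by
      have h1 : (p 0 ^ 2 + p 1 ^ 2) * v 2
          * (Z' * (S ^ 2 + C ^ 2) - 2 * Z * (S * S' + C * C')) = 0 := by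
        linear_combination (S ^ 2 + C ^ 2) * e2 - 2 * Z * ((p 0 * S - p 1 * C) * e0
          + (p 0 * C + p 1 * S) * e1)
      rw [hkey] at h1
      rcases mul_eq_zero.1 h1 with h2 | h2
      · exact (mul_eq_zero.1 h2).resolve_left hP.ne'
      · exact absurd h2 hpos.ne'
    rw [hv2] at e0 e1
    have hv0 : v 0 = 0 := by
      have h1 : v 0 * (S ^ 2 + C ^ 2) = 0 := by linear_combination S * e0 + C * e1
      exact (mul_eq_zero.1 h1).resolve_right hR.ne'
    have hv1 : v 1 = 0 := by
      have h1 : v 1 * (S ^ 2 + C ^ 2) = 0 := by linear_combination S * e1 - C * e0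
      exact (mul_eq_zero.1 h1).resolve_right hR.ne'
    ext i
    fin_cases i
    · exact hv0
    · exact hv1
    · exact hv2
    · exact e3
  exact ⟨hinj, surj_of_inj _ hinj⟩

theorem not_regular (p : R4) (hp : p ∈ conjLocus HX 0 hex) (hw1 : Real.pi < p 2)
    (hw2 : p 2 < 2 * Real.pi) : p ∉ regularPoints (conjLocus HX 0 hex) := by
  have h01 : p 0 = 0 ∧ p 1 = 0 := by
    by_contra hne
    exact hp.2 (bij p hw1 hw2 hne)
  have h3 : p 3 ≠ 0 := by
    intro h3
    apply hp.1
    rw [ham_zero, h01.1, h01.2, h3]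
    simp
  rintro ⟨-, U, hU, h⟩
  have hp0 : p ≠ 0 := by
    rintro rfl
    exact h3 rfl
  have hc : ContinuousAt (fun s : ℝ => s • p) 1 := by fun_prop
  have hev : ∀ᶠ s : ℝ in 𝓝 1, s • p ∈ U := hc.eventually (by simpa using hU)
  obtain ⟨δ, hδ, hball⟩ := Metric.eventually_nhds_iff_ball.1 hev
  set s : ℝ := 1 + min (δ / 2) 1 with hs
  have hm : 0 < min (δ / 2) 1 := lt_min (by linarith) one_pos
  have hs1 : s • p ∈ U := by
    apply hball
    rw [Metric.mem_ball, Real.dist_eq, hs, add_sub_cancel_left, abs_of_pos hm]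
    exact (min_le_left _ _).trans_lt (by linarith)
  have hs2 : s • p ∈ conjLocus HX 0 hex := by
    apply conj_vert
    · simp [h01.1]
    · simp [h01.2]
    · have : s ≠ 0 := by rw [hs]; linarith
      simp [this, h3]
  have h4 := h p hp0 s 1 ⟨hs2, hs1⟩ ⟨by rw [one_smul]; exact hp, by
    rw [one_smul]; exact mem_of_mem_nhds hU⟩
  have h5 : s * p 3 = 1 * p 3 := congrFun h4 3
  have h6 : (s - 1) * p 3 = 0 := by linarith
  rcases mul_eq_zero.1 h6 with h7 | h7
  · rw [hs] at h7
    linarith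
  · exact h3 h7

/-- There is a sub-Riemannian structure on `ℝ⁴` whose exponential map `ex` at `0` (defined on the
whole cotangent space) has a nonempty conjugate locus in which the regular conjugate locus is not
dense. -/
theorem result : ∃ (X : Fin 3 → (Fin 4 → ℝ) → (Fin 4 → ℝ)) (ex : (Fin 4 → ℝ) → (Fin 4 → ℝ)),
    IsSubRiemannianFrame X ∧ IsExpMap X 0 ex ∧ (conjLocus X 0 ex).Nonempty ∧
    ¬ conjLocus X 0 ex ⊆ closure (regularPoints (conjLocus X 0 ex)) := by
  have hpt : (![0, 0, 3 * Real.pi / 2, 1] : R4) ∈ conjLocus HX 0 hex :=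
    conj_vert _ (by simp) (by simp) (by simp)
  refine ⟨HX, hex, ⟨HX_smooth, HX_indep, ?_⟩, isExpMap, ⟨_, hpt⟩, ?_⟩
  · intro x
    rw [eq_top_iff]
    intro v _
    have hbr : VectorField.lieBracket ℝ (HX 0) (HX 1) x = ![0, 0, 1, 0] := by
      have d0 : HasFDerivAt (HX 0) (ContinuousLinearMap.pi (![0, 0,
          -((1 / 2 : ℝ) • ContinuousLinearMap.proj (R := ℝ) (φ := fun _ : Fin 4 => ℝ) 1), 0] :
          Fin 4 → (R4 →L[ℝ] ℝ))) x := by
        rw [hasFDerivAt_pi]
        intro i
        fin_cases i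
        · exact hasFDerivAt_const _ _
        · exact hasFDerivAt_const _ _
        · have h1 := ((hasFDerivAt_co 1 x).const_mul (1 / 2)).neg
          refine (h1.congr_of_eventuallyEq (Eventually.of_forall fun y => ?_)).congr_fderiv ?_
          · simp [HX]; ring
          · rfl
        · exact hasFDerivAt_const _ _
      have d1 : HasFDerivAt (HX 1) (ContinuousLinearMap.pi (![0, 0,
          ((1 / 2 : ℝ) • ContinuousLinearMap.proj (R := ℝ) (φ := fun _ : Fin 4 => ℝ) 0), 0] :
          Fin 4 → (R4 →L[ℝ] ℝ))) x := by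
        rw [hasFDerivAt_pi]
        intro i
        fin_cases i
        · exact hasFDerivAt_const _ _
        · exact hasFDerivAt_const _ _
        · have h1 := ((hasFDerivAt_co 0 x).const_mul (1 / 2))
          refine (h1.congr_of_eventuallyEq (Eventually.of_forall fun y => ?_)).congr_fderiv ?_
          · simp [HX]; ring
          · rfl
        · exact hasFDerivAt_const _ _
      unfold VectorField.lieBracket
      rw [d0.fderiv, d1.fderiv]
      ext i
      fin_cases i <;> simp [HX]
      norm_num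
    have g0 : HX 0 x ∈ Submodule.span ℝ {v | ∃ V, Generated HX V ∧ V x = v} :=
      Submodule.subset_span ⟨_, Generated.of 0, rfl⟩
    have g1 : HX 1 x ∈ Submodule.span ℝ {v | ∃ V, Generated HX V ∧ V x = v} :=
      Submodule.subset_span ⟨_, Generated.of 1, rfl⟩
    have g2 : HX 2 x ∈ Submodule.span ℝ {v | ∃ V, Generated HX V ∧ V x = v} :=
      Submodule.subset_span ⟨_, Generated.of 2, rfl⟩
    have g3 : (![0, 0, 1, 0] : R4) ∈ Submodule.span ℝ {v | ∃ V, Generated HX V ∧ V x = v} :=
      Submodule.subset_span ⟨_, Generated.bracket _ _ (Generated.of 0) (Generated.of 1), hbr⟩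
    have hv : v = v 0 • HX 0 x + v 1 • HX 1 x + v 3 • HX 2 x
        + (v 2 + v 0 * x 1 / 2 - v 1 * x 0 / 2) • (![0, 0, 1, 0] : R4) := by
      ext i
      fin_cases i <;> simp [HX]
      ring
    rw [hv]
    exact Submodule.add_mem _ (Submodule.add_mem _ (Submodule.add_mem _
      (Submodule.smul_mem _ _ g0) (Submodule.smul_mem _ _ g1)) (Submodule.smul_mem _ _ g2))
      (Submodule.smul_mem _ _ g3)
  · intro hcl
    have h1 := hcl hpt
    have hopen : IsOpen {p : R4 | Real.pi < p 2 ∧ p 2 < 2 * Real.pi} :=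
      (isOpen_lt continuous_const (continuous_apply 2)).inter
        (isOpen_lt (continuous_apply 2) continuous_const)
    obtain ⟨p, hp1, hp2⟩ := mem_closure_iff.1 h1 _ hopen (by
      constructor <;> simp <;> linarith [Real.pi_pos])
    exact not_regular p hp2.1 hp1.1 hp1.2 hp2

end Pool.Agent.Results.MP_f98bae_gt.RegularNotDense
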